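import Mathlib
import Pool.Agent.KS6_2.GC2.GasOde2
import Pool.Agent.KS6_2.GC2.GasShape

set_option autoImplicit false

open Set Real Filter Topology MeasureTheory
open scoped NNReal ContDiff

/-!
# The two limit shapes of an eternal gas cloud exist and differ (MP_f907ca_an, Q1)

For every dimension `d ≥ 2`, every `A > 0` and every `γ > 1` there is a shock-free eternal flow in vacuum
with physical singularity which has a limit shape at each of the two time ends, both being nondegenerate
ellipsoids, and these two ellipsoids are different: the second is obtained from the first by exchanging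
two unequal semi-axes.
-/

namespace Pool.Agent.Results.MP_f907ca_an.BothLimitShapes

/-- Euclidean space of dimension `d`. -/
abbrev Space (d : ℕ) : Type := EuclideanSpace ℝ (Fin d)

/-- The partial derivative `∂f/∂x_i`. -/
noncomputable def pd {d : ℕ} (i : Fin d) (f : Space d → ℝ) (x : Space d) : ℝ :=
  fderiv ℝ f x (EuclideanSpace.single i 1)

/-- The square `c² = p'(ρ) = γ A ρ^(γ-1)` of the sound speed. -/
noncomputable def soundSq (A γ r : ℝ) : ℝ := γ * A * r ^ (γ - 1)

/-- The outer unit normal at a boundary point `x` of the set `{φ > 0}`. -/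
noncomputable def outerNormal {d : ℕ} (φ : Space d → ℝ) (x : Space d) : Space d :=
  -(‖gradient φ x‖⁻¹ • gradient φ x)

/-- A shock-free eternal flow in vacuum with physical singularity, for the isentropic Euler system with
pressure law `p = A ρ^γ` in `ℝ^d`. The gas occupies at time `t ∈ ℝ` the set `Ω t = {φ t > 0}`; `ρ` is the
density, `u` the velocity and `g` the front acceleration. -/
structure IsEternalFlow {d : ℕ} (A γ : ℝ) (Ω : ℝ → Set (Space d)) (φ : ℝ → Space d → ℝ)
    (ρ : ℝ → Space d → ℝ) (u : ℝ → Space d → Space d) (g : ℝ → Space d → ℝ) : Prop where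
  /-- `Ω t` is a nonempty bounded open set with smooth boundary, which depends smoothly on `t` -/
  smooth_phi : ContDiff ℝ ∞ (fun q : ℝ × Space d => φ q.1 q.2)
  domain_eq : ∀ t, Ω t = {x | 0 < φ t x}
  domain_nonempty : ∀ t, (Ω t).Nonempty
  domain_bounded : ∀ t, Bornology.IsBounded (Ω t)
  regular_boundary : ∀ t, ∀ x ∈ frontier (Ω t), gradient (φ t) x ≠ 0
  /-- gas inside, vacuum outside and on the front; finite mass and energy -/
  density_pos : ∀ t, ∀ x ∈ Ω t, 0 < ρ t x
  vacuum : ∀ t, ∀ x ∉ Ω t, ρ t x = 0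
  finite_mass : ∀ t, Integrable (ρ t)
  finite_energy : ∀ t, Integrable fun x => ρ t x * ‖u t x‖ ^ 2 / 2 + A * ρ t x ^ γ / (γ - 1)
  /-- `(ρ, u)` is a classical (`C¹`) solution of the Euler system in `{(t, x) : x ∈ Ω t}` -/
  classical : ContDiffOn ℝ 1 (fun q : ℝ × Space d => (ρ q.1 q.2, u q.1 q.2)) {q | q.2 ∈ Ω q.1}
  mass : ∀ t, ∀ x ∈ Ω t,
    deriv (fun s => ρ s x) t + ∑ i, pd i (fun y => ρ t y * u t y i) x = 0
  momentum : ∀ t, ∀ x ∈ Ω t, ∀ j,
    deriv (fun s => ρ s x * u s x j) t + ∑ i, pd i (fun y => ρ t y * u t y i * u t y j) x +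
      pd j (fun y => A * ρ t y ^ γ) x = 0
  /-- the front: `u` is smooth across it and it moves with normal velocity `u·ν` -/
  velocity_smooth : ContDiff ℝ ∞ (fun q : ℝ × Space d => u q.1 q.2)
  front_velocity : ∀ t, ∀ x ∈ frontier (Ω t),
    deriv (fun s => φ s x) t + fderiv ℝ (φ t) x (u t x) = 0
  /-- physical singularity: `c²` is Lipschitz up to the front, `g = -(γ-1)⁻¹ ∂c²/∂ν ≥ 0` on the front
  (one-sided derivative from inside the gas), `g` is not identically zero there, and the
  acceleration of the boundary particles is `g ν` -/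
  sound_lipschitz : ∀ t, ∃ K : ℝ≥0, LipschitzOnWith K (fun x => soundSq A γ (ρ t x)) (closure (Ω t))
  front_accel : ∀ t, ∀ x ∈ frontier (Ω t),
    HasDerivWithinAt (fun s : ℝ => soundSq A γ (ρ t (x - s • outerNormal (φ t) x)))
      ((γ - 1) * g t x) (Ici 0) 0
  accel_nonneg : ∀ t, ∀ x ∈ frontier (Ω t), 0 ≤ g t x
  accel_ne_zero : ∃ t, ∃ x ∈ frontier (Ω t), g t x ≠ 0
  accel_eq : ∀ t, ∀ x ∈ frontier (Ω t),
    deriv (fun s => u s x) t + fderiv ℝ (u t) x (u t x) = g t x • outerNormal (φ t) x

/-- `Ω(t)` behaves asymptotically as `t O` along the filter `l` (`l` is `atTop` for `t → +∞` and `atBot` for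
`t → -∞`): the closure of `t⁻¹ Ω(t)` converges to the closure of `O` in Hausdorff distance. -/
def BehavesAs {d : ℕ} (Ω : ℝ → Set (Space d)) (O : Set (Space d)) (l : Filter ℝ) : Prop :=
  Tendsto (fun t : ℝ => Metric.hausdorffEDist (closure ((fun x => t⁻¹ • x) '' Ω t)) (closure O)) l (𝓝 0)

/-- The solid open ellipsoid centred at the origin, along the coordinate axes, with semi-axes `α`. -/
def Ellipsoid {d : ℕ} (α : Fin d → ℝ) : Set (Space d) := {x | ∑ i, x i ^ 2 / α i ^ 2 < 1}

open Pool.Agent.KS6_2.GC2 Pool.Agent.KS6_2.GC2.Gas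

/-- flows from the motion of the semi-axes -/
theorem isEternalFlow {d : ℕ} (hd : 0 < d) {A γ : ℝ} (hA : 0 < A) (hγ : 1 < γ) {a av : Fin d → ℝ → ℝ}
    (h : Axes γ a av) :
    IsEternalFlow A γ (Om a) (S a) (rho A γ a) (vel a av)
      (fun t x => (∏ j, a j t) ^ (1 - γ) * ‖Gr a t x‖) := by
  have hn : ∀ t x, outerNormal (S a t) x = (‖Gr a t x‖)⁻¹ • Gr a t x := by
    intro t x
    unfold outerNormal
    rw [gradient_S, norm_neg, norm_smul, smul_neg, neg_neg, smul_smul]
    congr 1
    simp
  refine ⟨h.contDiff_S, fun t => rfl, fun t => ⟨0, zero_mem t⟩, h.bounded, ?_, fun t x hx =>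
    h.rho_pos hA hγ hx, fun t x hx => rho_zero hγ hx, h.integrable_rho hγ, h.integrable_energy hγ,
    h.contDiffOn hA hγ, fun t x hx => h.mass hA hγ hx, fun t x hx j => h.momentum hA hγ hx j,
    h.contDiff_vel, fun t x _ => h.front t x, h.sound_lip hA hγ, ?_, ?_, ?_, ?_⟩
  · intro t x hx
    rw [gradient_S]
    have := h.Gr_ne (h.frontier_Om hx)
    simpa using this
  · intro t x hx
    simp only [hn]
    exact h.sound_normal hA hγ (h.frontier_Om hx)
  · intro t x _
    have := h.prod_pos t
    positivity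
  · -- a boundary point
    have hne : (frontier (Om a 0)).Nonempty := by
      rw [nonempty_frontier_iff]
      refine ⟨⟨0, zero_mem 0⟩, fun huniv => ?_⟩
      have hb := h.bounded 0
      rw [huniv] at hb
      have : Nonempty (Fin d) := ⟨⟨0, hd⟩⟩
      have : Nontrivial (Space d) := inferInstance
      exact NormedSpace.unbounded_univ ℝ (Space d) hb
    obtain ⟨x, hx⟩ := hne
    refine ⟨0, x, hx, ?_⟩
    have h1 := h.prod_pos 0
    have h2 := norm_pos_iff.2 (h.Gr_ne (h.frontier_Om hx))
    positivity
  · intro t x hx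
    have h2 := norm_pos_iff.2 (h.Gr_ne (h.frontier_Om hx))
    rw [h.accel, hn, smul_smul]
    congr 1
    field_simp

/-- **Both limit shapes exist, and they differ.** For every dimension `d ≥ 2`, every `A > 0` and every `γ > 1`
there is a shock-free eternal flow in vacuum with physical singularity and there are semi-axes `α > 0` with
`α i ≠ α j` such that `Ω(t)` behaves asymptotically as `t O` with `O` the ellipsoid of semi-axes `α` as
`t → +∞`, and with `O` the ellipsoid with the semi-axes `α i` and `α j` exchanged as `t → -∞`. The closures of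
the two ellipsoids differ, and no set `O` at all, bounded or not, serves at both ends. -/
theorem result (d : ℕ) (hd : 2 ≤ d) (A γ : ℝ) (hA : 0 < A) (hγ : 1 < γ) :
    ∃ (Ω : ℝ → Set (Space d)) (φ : ℝ → Space d → ℝ) (ρ : ℝ → Space d → ℝ)
      (u : ℝ → Space d → Space d) (g : ℝ → Space d → ℝ) (α : Fin d → ℝ) (i j : Fin d),
      IsEternalFlow A γ Ω φ ρ u g ∧ (∀ k, 0 < α k) ∧ α i ≠ α j ∧
      BehavesAs Ω (Ellipsoid α) atTop ∧ BehavesAs Ω (Ellipsoid (α ∘ Equiv.swap i j)) atBot ∧
      closure (Ellipsoid α) ≠ closure (Ellipsoid (α ∘ Equiv.swap i j)) ∧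
      ¬ ∃ O : Set (Space d), BehavesAs Ω O atTop ∧ BehavesAs Ω O atBot := by
  obtain ⟨n, rfl⟩ : ∃ n, d = n + 2 := ⟨d - 2, by omega⟩
  obtain ⟨z, w, c, zv, wv, cv, κ, hκ, hz, hw, hc, hzv, hwv, hcv, hreg, hsym, hgrow⟩ :=
    exists_motion n hγ
  set a : Fin (n + 2) → ℝ → ℝ :=
    Fin.cons (fun t => z t + w t) (Fin.cons (fun t => z t - w t) (fun _ => c)) with ha
  set av : Fin (n + 2) → ℝ → ℝ :=
    Fin.cons (fun t => zv t + wv t) (Fin.cons (fun t => zv t - wv t) (fun _ => cv)) with hav
  have hP : ∀ t, 0 < z t ^ 2 - w t ^ 2 := fun t => region_pos (hreg t).1 (hreg t).2.1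
  have hc0 : ∀ t, 0 < c t := fun t => by linarith [(hreg t).2.2]
  have hplus : ∀ t, 0 < z t + w t := fun t => by
    have := abs_le.1 (hreg t).2.1
    linarith [(hreg t).1]
  have hminus : ∀ t, 0 < z t - w t := fun t => by
    have := abs_le.1 (hreg t).2.1
    linarith [(hreg t).1]
  have hprod : ∀ t, ∏ j, a j t = (z t ^ 2 - w t ^ 2) * c t ^ n := by
    intro t
    rw [Fin.prod_univ_succ, Fin.prod_univ_succ]
    simp [ha]
    ring
  have hpow : ∀ t, (∏ j, a j t) ^ (1 - γ) = Phi γ ((γ - 1) * n) (z t) (w t) (c t) * (z t ^ 2 - w t ^ 2) := by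
    intro t
    rw [hprod, Real.mul_rpow (hP t).le (by have := hc0 t; positivity), ← Real.rpow_natCast (c t) n,
      ← Real.rpow_mul (hc0 t).le]
    unfold Phi
    rw [show (n:ℝ) * (1 - γ) = -((γ - 1) * n) by ring, show (1 - γ) = 1 + (-γ) by ring,
      Real.rpow_add (hP t), Real.rpow_one]
    ring
  have hax : Axes γ a av := by
    refine ⟨?_, ?_, ?_⟩
    · intro i t
      refine Fin.cases ?_ (fun i => Fin.cases ?_ (fun i => ?_) i) i
      · simpa [ha, hav] using (hz t).fun_add (hw t)
      · simpa [ha, hav] using (hz t).fun_sub (hw t)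
      · simpa [ha, hav] using hc t
    · intro i t
      rw [hpow]
      refine Fin.cases ?_ (fun i => Fin.cases ?_ (fun i => ?_) i) i
      · have := (hzv t).add (hwv t)
        simp only [ha, hav, Fin.cons_zero]
        refine this.congr_deriv ?_
        have := (hplus t).ne'
        field_simp
        ring
      · have := (hzv t).sub (hwv t)
        simp only [ha, hav, Fin.cons_zero, Fin.cons_succ]
        refine this.congr_deriv ?_
        have := (hminus t).ne'
        field_simp
        ring
      · have := hcv t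
        simp only [ha, hav, Fin.cons_succ]
        exact this
    · intro i t
      refine Fin.cases ?_ (fun i => Fin.cases ?_ (fun i => ?_) i) i
      · simpa [ha] using hplus t
      · simpa [ha] using hminus t
      · simpa [ha] using hc0 t
  -- the symmetry of the motion
  have hswap : ∀ (i : Fin (n + 2)) (t : ℝ), a i (-t) = a (Equiv.swap 0 1 i) t := by
    intro i t
    refine Fin.cases ?_ (fun i => Fin.cases ?_ (fun i => ?_) i) i
    · rw [Equiv.swap_apply_left]
      show z (-t) + w (-t) = z t - w t
      rw [(hsym t).1, (hsym t).2.1]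
      ring
    · rw [show (Fin.succ (0 : Fin (n + 1))) = 1 from rfl, Equiv.swap_apply_right]
      show z (-t) - w (-t) = z t + w t
      rw [(hsym t).1, (hsym t).2.1]
      ring
    · rw [Equiv.swap_apply_of_ne_of_ne (by simp [Fin.ext_iff]) (by simp [Fin.ext_iff])]
      show c (-t) = c t
      exact (hsym t).2.2
  obtain ⟨α, hα, hαle⟩ := hax.exists_lim hγ
  have hmean : ∀ i, Tendsto (fun t => a i t / t) atTop (𝓝 (α i)) := fun i =>
    tendsto_div_of_deriv (hax.ha i) (hα i)
  -- positivity of the limit semi-axes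
  have hα1 : κ ≤ α 1 := by
    refine ge_of_tendsto (hmean 1) ?_
    filter_upwards [eventually_ge_atTop (2:ℝ)] with t ht
    have ht0 : 0 < t := by linarith
    rw [le_div_iff₀ ht0]
    show κ * t ≤ z t - w t
    have h1 := hgrow t ht
    have h2 := abs_le.1 (hreg t).2.1
    linarith [h2.2]
  have hα01 : α 1 + 2 * κ ≤ α 0 := by
    have h1 : Tendsto (fun t => a 0 t / t - a 1 t / t) atTop (𝓝 (α 0 - α 1)) :=
      (hmean 0).sub (hmean 1)
    have h2 : 2 * κ ≤ α 0 - α 1 := by
      refine ge_of_tendsto h1 ?_
      filter_upwards [eventually_ge_atTop (2:ℝ)] with t ht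
      have ht0 : 0 < t := by linarith
      rw [← sub_div, le_div_iff₀ ht0]
      show 2 * κ * t ≤ (z t + w t) - (z t - w t)
      linarith [hgrow t ht]
    linarith
  have hαpos : ∀ k, 0 < α k := by
    intro k
    refine Fin.cases ?_ (fun i => Fin.cases ?_ (fun i => ?_) i) k
    · linarith
    · show 0 < α 1
      linarith
    · -- the speed of the other semi-axes is odd
      have h0 : cv 0 = 0 := by
        have h1 : HasDerivAt (fun t : ℝ => c (-t)) (-(cv 0)) 0 := by
          have h2 : HasDerivAt c (cv 0) (-(0:ℝ)) := by simpa using hc 0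
          have h4 := h2.comp (0:ℝ) (hasDerivAt_neg (0:ℝ))
          rw [mul_neg, mul_one] at h4
          exact h4
        have h3 : (fun t : ℝ => c (-t)) = c := funext fun t => (hsym t).2.2
        rw [h3] at h1
        have := h1.unique (hc 0)
        linarith
      have h1 : av i.succ.succ 0 < av i.succ.succ 1 := hax.strictMono_av _ one_pos
      have h2 := hαle i.succ.succ 1
      have h3 : av i.succ.succ 0 = 0 := h0
      linarith
  have htop : BehavesAs (Om a) (Ellipsoid α) atTop := by
    refine (tendsto_Ell hαpos hmean).congr' ?_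
    filter_upwards [eventually_gt_atTop (0:ℝ)] with t ht
    rw [image_Om ht.ne']
    rfl
  have hαpos' : ∀ k, 0 < (α ∘ Equiv.swap 0 1) k := fun k => hαpos _
  have hbot : BehavesAs (Om a) (Ellipsoid (α ∘ Equiv.swap 0 1)) atBot := by
    have h1 : Tendsto (fun t : ℝ => Metric.hausdorffEDist
        (closure (Ell fun i => a (Equiv.swap 0 1 i) t / t)) (closure (Ell (α ∘ Equiv.swap 0 1)))) atTop
        (𝓝 0) := tendsto_Ell hαpos' (fun i => hmean _)
    have h2 : Tendsto (fun t : ℝ => Metric.hausdorffEDist (closure ((fun x => (-t)⁻¹ • x) '' Om a (-t)))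
        (closure (Ellipsoid (α ∘ Equiv.swap 0 1)))) atTop (𝓝 0) := by
      refine h1.congr' ?_
      filter_upwards [eventually_gt_atTop (0:ℝ)] with t ht
      have ht' : -t ≠ 0 := by
        have := ht.ne'
        simpa using this
      rw [image_Om ht']
      have e : Ell (fun i => a i (-t) / (-t)) = Ell (fun i => a (Equiv.swap 0 1 i) t / t) := by
        refine Ell_congr_sq fun i => ?_
        rw [hswap i t]
        ring
      rw [e]
      rfl
    have h3 := h2.comp tendsto_neg_atBot_atTop
    refine h3.congr fun t => ?_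
    simp only [Function.comp_apply, neg_neg]
  have hne : closure (Ellipsoid α) ≠ closure (Ellipsoid (α ∘ Equiv.swap 0 1)) := by
    intro heq
    have h1 := le_of_closure_subset hαpos hαpos' (show closure (Ell α) ⊆ closure (Ell (α ∘ Equiv.swap 0 1))
      from heq.subset) 0
    simp only [Function.comp_apply, Equiv.swap_apply_left] at h1
    linarith
  refine ⟨Om a, S a, rho A γ a, vel a av, _, α, 0, 1, isEternalFlow (by omega) hA hγ hax, hαpos,
    (by linarith : α 1 < α 0).ne', htop, hbot, hne, ?_⟩
  · rintro ⟨O, hO1, hO2⟩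
    -- limits are unique up to closure
    have huniq : ∀ (l : Filter ℝ) [l.NeBot] (P : Set (Space (n + 2))), BehavesAs (Om a) P l →
        BehavesAs (Om a) O l → Metric.hausdorffEDist (closure P) (closure O) = 0 := by
      intro l _ P h1 h2
      have h3 := Tendsto.add h1 h2
      rw [add_zero] at h3
      have h4 : Metric.hausdorffEDist (closure P) (closure O) ≤ 0 := by
        refine ge_of_tendsto' h3 fun t => ?_
        refine (Metric.hausdorffEDist_triangle (t := closure ((fun x => t⁻¹ • x) '' Om a t))).trans ?_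
        rw [Metric.hausdorffEDist_comm]
      exact le_antisymm h4 zero_le
    have e1 := (isClosed_closure.hausdorffEDist_zero_iff isClosed_closure).1 (huniq atTop _ htop hO1)
    have e2 := (isClosed_closure.hausdorffEDist_zero_iff isClosed_closure).1 (huniq atBot _ hbot hO2)
    exact hne (e1.trans e2.symm)

end Pool.Agent.Results.MP_f907ca_an.BothLimitShapes
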